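import Pool.Agent.Helper40.AC.Stmts

/-! Project AC (MP_4c91e2_ag), packet P27: the parametrisation of `M` near the basic torus. -/

open scoped ContDiff Topology Matrix

namespace Pool.Agent.Helper27.AC

open Pool.Agent.Helper40.AC

noncomputable section

/-- The vector `(1 - pL x) v`. -/
def vone (x : Ang) (v : Fin 4 → ℝ) : Fin 4 → ℝ := (1 - pL x) *ᵥ v

/-- The square of the length of `(1 - pL x) v`. -/
def sone (x : Ang) (v : Fin 4 → ℝ) : ℝ := ∑ i, vone x v i ^ 2

/-- The parametrisation. -/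
def muF (x : Ang) (v : Fin 4 → ℝ) : Idx → ℝ :=
  Sum.elim (fun j => Real.cos (x j)) (Sum.elim (fun j => Real.sin (x j))
    (fun k => if h : k.1 < 4 then 2 * vone x v ⟨k.1, h⟩ / (1 + sone x v)
      else (1 - sone x v) / (1 + sone x v)))

theorem sone_nonneg (x : Ang) (v : Fin 4 → ℝ) : 0 ≤ sone x v :=
  Finset.sum_nonneg fun _ _ => sq_nonneg _

theorem sone_pos (x : Ang) (v : Fin 4 → ℝ) : 1 + sone x v ≠ 0 := by
  have := sone_nonneg x v
  positivity

theorem vone_apply (x : Ang) (v : Fin 4 → ℝ) (i : Fin 4) :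
    vone x v i = ∑ j, ((1 : Matrix (Fin 4) (Fin 4) ℝ) i j - pL x i j) * v j := by
  simp [vone, Matrix.mulVec, dotProduct]

theorem vone_smooth (h3 : S_PLSM) (i : Fin 4) :
    ContDiff ℝ ∞ (fun q : Ang × (Fin 4 → ℝ) => vone q.1 q.2 i) := by
  have h : (fun q : Ang × (Fin 4 → ℝ) => vone q.1 q.2 i) =
      fun q => ∑ j, ((1 : Matrix (Fin 4) (Fin 4) ℝ) i j - pL q.1 i j) * q.2 j :=
    funext fun q => vone_apply q.1 q.2 i
  rw [h]
  refine ContDiff.sum fun j _ => ?_
  refine ContDiff.mul ?_ ?_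
  · exact contDiff_const.sub ((h3 i j).1.comp contDiff_fst)
  · exact (contDiff_apply ℝ ℝ j).comp contDiff_snd

theorem sone_smooth (h3 : S_PLSM) :
    ContDiff ℝ ∞ (fun q : Ang × (Fin 4 → ℝ) => sone q.1 q.2) :=
  ContDiff.sum fun i _ => (vone_smooth h3 i).pow 2

theorem muF_smooth (h3 : S_PLSM) :
    ContDiff ℝ ∞ (fun q : Ang × (Fin 4 → ℝ) => muF q.1 q.2) := by
  rw [contDiff_pi]
  rintro (j | j | k)
  · exact Real.contDiff_cos.comp ((contDiff_apply ℝ ℝ j).comp contDiff_fst)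
  · exact Real.contDiff_sin.comp ((contDiff_apply ℝ ℝ j).comp contDiff_fst)
  · by_cases hk : k.1 < 4
    · have h : (fun q : Ang × (Fin 4 → ℝ) => muF q.1 q.2 (Sum.inr (Sum.inr k))) =
          fun q => 2 * vone q.1 q.2 ⟨k.1, hk⟩ / (1 + sone q.1 q.2) := by
        funext q
        simp [muF, hk]
      rw [h]
      exact (contDiff_const.mul (vone_smooth h3 _)).div
        (contDiff_const.add (sone_smooth h3)) (fun q => sone_pos _ _)
    · have h : (fun q : Ang × (Fin 4 → ℝ) => muF q.1 q.2 (Sum.inr (Sum.inr k))) =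
          fun q => (1 - sone q.1 q.2) / (1 + sone q.1 q.2) := by
        funext q
        simp [muF, hk]
      rw [h]
      exact (contDiff_const.sub (sone_smooth h3)).div
        (contDiff_const.add (sone_smooth h3)) (fun q => sone_pos _ _)

theorem aT_unit (h1 : S_ROOT) (c₁ s₁ c₂ s₂ : ℝ) (h : c₁ ^ 2 + s₁ ^ 2 = 1)
    (h' : c₂ ^ 2 + s₂ ^ 2 = 1) : ∑ i, aT c₁ s₁ c₂ s₂ i ^ 2 = 1 := by
  have hN := h1.2.2.1 c₁ s₁ c₂ s₂ (rootF (gg c₁ s₁ c₂ s₂))
  have hS := h1.2.2.2 c₁ s₁ c₂ s₂ (rootF (gg c₁ s₁ c₂ s₂)) h h' (rootF_spec _)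
  simp only [aT, div_pow]
  rw [← Finset.sum_div, hS]
  exact div_self (pow_ne_zero 2 hN.ne')

theorem pL_quat (h1 : S_ROOT) (h2 : S_QUAT) (x : Ang) :
    pL x * pL x = pL x ∧
    ∀ v : Fin 4 → ℝ,
      (LL (aT (Real.cos (x 0)) (Real.sin (x 0)) (Real.cos (x 1)) (Real.sin (x 1))) +
        RR (aT (Real.cos (x 2)) (Real.sin (x 2)) (Real.cos (x 3)) (Real.sin (x 3)))) *ᵥ v = 0 ↔
        pL x *ᵥ v = 0 := by
  have h := h2 (aT (Real.cos (x 0)) (Real.sin (x 0)) (Real.cos (x 1)) (Real.sin (x 1)))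
    (aT (Real.cos (x 2)) (Real.sin (x 2)) (Real.cos (x 3)) (Real.sin (x 3)))
    (aT_unit h1 _ _ _ _ (Real.cos_sq_add_sin_sq _) (Real.cos_sq_add_sin_sq _))
    (aT_unit h1 _ _ _ _ (Real.cos_sq_add_sin_sq _) (Real.cos_sq_add_sin_sq _))
  exact ⟨h.2.2.2.2.2.1, h.2.2.2.2.2.2.2.2⟩

theorem one_sub_mul (h1 : S_ROOT) (h2 : S_QUAT) (x : Ang) :
    (1 - pL x) * (1 - pL x) = 1 - pL x := by
  have h := (pL_quat h1 h2 x).1
  rw [sub_mul, mul_sub, mul_sub, h]
  simp

theorem pL_vone (h1 : S_ROOT) (h2 : S_QUAT) (x : Ang) (v : Fin 4 → ℝ) :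
    pL x *ᵥ vone x v = 0 := by
  have h := (pL_quat h1 h2 x).1
  rw [vone, Matrix.mulVec_mulVec, mul_sub, h]
  simp

theorem muF_vv (x : Ang) (v : Fin 4 → ℝ) :
    vv (muF x v) = (2 / (1 + sone x v)) • vone x v := by
  funext k
  have hk : (k.castSucc).1 < 4 := by simp
  simp only [vv, ww, muF, Sum.elim_inr, Pi.smul_apply, smul_eq_mul]
  rw [dif_pos hk]
  have : (⟨(k.castSucc).1, hk⟩ : Fin 4) = k := Fin.ext (by simp)
  rw [this]
  ring

theorem muF_four (x : Ang) (v : Fin 4 → ℝ) :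
    ww (muF x v) (Fin.last 4) = (1 - sone x v) / (1 + sone x v) := by
  simp [ww, muF]

theorem muF_VV (x : Ang) (v : Fin 4 → ℝ) : muF x v ∈ VV := by
  refine ⟨fun j => ?_, ?_⟩
  · simp only [cc, ss, muF, Sum.elim_inl, Sum.elim_inr]
    exact Real.cos_sq_add_sin_sq _
  · rw [Fin.sum_univ_castSucc, muF_four]
    have h : ∀ k : Fin 4, ww (muF x v) k.castSucc ^ 2 =
        (2 / (1 + sone x v)) ^ 2 * vone x v k ^ 2 := by
      intro k
      have := congrFun (muF_vv x v) k
      simp only [vv, Pi.smul_apply, smul_eq_mul] at this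
      rw [this]
      ring
    simp only [h]
    rw [← Finset.mul_sum]
    have hs : ∑ i, vone x v i ^ 2 = sone x v := rfl
    rw [hs]
    have := sone_pos x v
    field_simp
    ring

theorem muF_MM (h1 : S_ROOT) (h2 : S_QUAT) (x : Ang) (v : Fin 4 → ℝ) : muF x v ∈ MM := by
  refine ⟨muF_VV x v, ?_⟩
  have h := ((pL_quat h1 h2 x).2 (vone x v)).2 (pL_vone h1 h2 x v)
  rw [muF_vv, Matrix.mulVec_smul]
  have hh : (LL (a1 (muF x v)) + RR (a2 (muF x v))) *ᵥ vone x v = 0 := h
  rw [hh, smul_zero]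

theorem vone_zero (x : Ang) : vone x 0 = 0 := by
  simp [vone]

theorem sone_zero (x : Ang) : sone x 0 = 0 := by
  simp [sone, vone_zero]

theorem muF_zero (x : Ang) : muF x 0 = kk x := by
  funext i
  rcases i with (j | j | k)
  · rfl
  · rfl
  · simp only [muF, kk, Sum.elim_inr, vone_zero, sone_zero]
    by_cases hk : k.1 < 4
    · rw [dif_pos hk, if_neg]
      · simp
      · rintro rfl
        exact absurd hk (by decide)
    · rw [dif_neg hk, if_pos]
      · simp
      · apply Fin.ext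
        have := k.2
        show k.1 = 4
        omega

theorem pL_per (h3 : S_PLSM) (x : Ang) (k : Fin 4) :
    pL (x + Pi.single k (2 * Real.pi)) = pL x := by
  ext i j
  exact (h3 i j).2 x k

theorem cos_per (x : Ang) (k j : Fin 4) :
    Real.cos ((x + Pi.single k (2 * Real.pi) : Ang) j) = Real.cos (x j) := by
  by_cases h : j = k
  · subst h
    simp
  · simp [Pi.single_eq_of_ne h]

theorem sin_per (x : Ang) (k j : Fin 4) :
    Real.sin ((x + Pi.single k (2 * Real.pi) : Ang) j) = Real.sin (x j) := by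
  by_cases h : j = k
  · subst h
    simp
  · simp [Pi.single_eq_of_ne h]

theorem muF_per (h3 : S_PLSM) (x : Ang) (k : Fin 4) (v : Fin 4 → ℝ) :
    muF (x + Pi.single k (2 * Real.pi)) v = muF x v := by
  have hv : vone (x + Pi.single k (2 * Real.pi)) v = vone x v := by
    simp only [vone, pL_per h3]
  have hs : sone (x + Pi.single k (2 * Real.pi)) v = sone x v := by
    simp only [sone, hv]
  funext i
  rcases i with (j | j | l)
  · exact cos_per x k j
  · exact sin_per x k j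
  · simp only [muF, Sum.elim_inr, hv, hs]

theorem muF_proj (h1 : S_ROOT) (h2 : S_QUAT) (x : Ang) (v : Fin 4 → ℝ) :
    muF x ((1 - pL x) *ᵥ v) = muF x v := by
  have hv : vone x ((1 - pL x) *ᵥ v) = vone x v := by
    rw [vone, Matrix.mulVec_mulVec, one_sub_mul h1 h2]
    rfl
  have hs : sone x ((1 - pL x) *ᵥ v) = sone x v := by
    simp only [sone, hv]
  simp only [muF, hv, hs]

theorem hasDerivAt_id_mul (h : ℝ → ℝ) (hh : ContinuousAt h 0) :
    HasDerivAt (fun t => t * h t) (h 0) 0 := by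
  rw [hasDerivAt_iff_tendsto_slope]
  have h1 : Filter.Tendsto h (𝓝[≠] 0) (𝓝 (h 0)) := hh.tendsto.mono_left nhdsWithin_le_nhds
  refine h1.congr' ?_
  filter_upwards [self_mem_nhdsWithin] with t ht
  have ht' : t ≠ 0 := ht
  simp [slope_def_field, ht']

theorem uL_smul (t : ℝ) (u : Fin 8 → ℝ) : uL (t • u) = t • uL u := rfl

theorem uR_smul (t : ℝ) (u : Fin 8 → ℝ) : uR (t • u) = t • uR u := rfl

theorem uL_contDiff : ContDiff ℝ ∞ uL := by
  rw [contDiff_pi]
  intro j
  exact contDiff_apply ℝ ℝ _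

theorem uR_contDiff : ContDiff ℝ ∞ uR := by
  rw [contDiff_pi]
  intro j
  exact contDiff_apply ℝ ℝ _

/-- The vector `(1 - pL (x + t a)) b` as a function of `t`. -/
def gv (x a : Ang) (b : Fin 4 → ℝ) (t : ℝ) : Fin 4 → ℝ := (1 - pL (x + t • a)) *ᵥ b

theorem gv_cont (h3 : S_PLSM) (x a : Ang) (b : Fin 4 → ℝ) (i : Fin 4) :
    Continuous (fun t => gv x a b t i) := by
  have h1 : Continuous (fun q : Ang × (Fin 4 → ℝ) => vone q.1 q.2 i) :=
    (vone_smooth h3 i).continuous
  have h2 : Continuous (fun t : ℝ => ((x + t • a, b) : Ang × (Fin 4 → ℝ))) :=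
    (continuous_const.add (continuous_id.smul continuous_const)).prodMk continuous_const
  have h4 := h1.comp h2
  rw [Function.comp_def] at h4
  exact h4

theorem vone_line (x a : Ang) (b : Fin 4 → ℝ) (t : ℝ) :
    vone (x + t • a) (t • b) = t • gv x a b t := by
  rw [vone, Matrix.mulVec_smul]
  rfl

theorem sone_line (x a : Ang) (b : Fin 4 → ℝ) (t : ℝ) :
    sone (x + t • a) (t • b) = t ^ 2 * ∑ i, gv x a b t i ^ 2 := by
  rw [sone, vone_line, Finset.mul_sum]
  refine Finset.sum_congr rfl fun i _ => ?_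
  simp only [Pi.smul_apply, smul_eq_mul]
  ring

theorem den_pos (x a : Ang) (b : Fin 4 → ℝ) (t : ℝ) :
    1 + t ^ 2 * ∑ i, gv x a b t i ^ 2 ≠ 0 := by
  have : 0 ≤ ∑ i, gv x a b t i ^ 2 := Finset.sum_nonneg fun i _ => sq_nonneg _
  positivity

theorem deriv_line (h3 : S_PLSM) (x a : Ang) (b : Fin 4 → ℝ) :
    HasDerivAt (fun t : ℝ => muF (x + t • a) (t • b))
      (Sum.elim (fun j => -Real.sin (x j) * a j) (Sum.elim (fun j => Real.cos (x j) * a j)
        (fun k => if h : k.1 < 4 then 2 * ((1 - pL x) *ᵥ b) ⟨k.1, h⟩ else 0))) 0 := by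
  rw [hasDerivAt_pi]
  have hG : Continuous fun t => ∑ i, gv x a b t i ^ 2 :=
    continuous_finsetSum _ fun i _ => (gv_cont h3 x a b i).pow 2
  have hlin : ∀ j, HasDerivAt (fun t : ℝ => (x + t • a : Ang) j) (a j) 0 := by
    intro j
    have h := ((hasDerivAt_id (0 : ℝ)).mul_const (a j)).const_add (x j)
    simpa using h
  rintro (j | j | k)
  · have h := (hlin j).cos
    simp only [zero_smul, add_zero] at h
    exact h
  · have h := (hlin j).sin
    simp only [zero_smul, add_zero] at h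
    exact h
  · by_cases hk : k.1 < 4
    · have h := hasDerivAt_id_mul
        (fun t => 2 * gv x a b t ⟨k.1, hk⟩ / (1 + t ^ 2 * ∑ i, gv x a b t i ^ 2)) (by
          refine Continuous.continuousAt ?_
          exact (continuous_const.mul (gv_cont h3 x a b _)).div
            (continuous_const.add ((continuous_id.pow 2).mul hG)) (den_pos x a b))
      have e1 : (fun t : ℝ => muF (x + t • a) (t • b) (Sum.inr (Sum.inr k))) =
          fun t => t * (2 * gv x a b t ⟨k.1, hk⟩ / (1 + t ^ 2 * ∑ i, gv x a b t i ^ 2)) := by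
        funext t
        simp only [muF, Sum.elim_inr, dif_pos hk, sone_line, vone_line, Pi.smul_apply,
          smul_eq_mul]
        ring
      rw [e1]
      have e2 : (Sum.elim (fun j => -Real.sin (x j) * a j) (Sum.elim (fun j => Real.cos (x j) * a j)
          (fun k : Fin 5 => if h : k.1 < 4 then 2 * ((1 - pL x) *ᵥ b) ⟨k.1, h⟩ else 0)) :
            Idx → ℝ) (Sum.inr (Sum.inr k)) =
          2 * gv x a b 0 ⟨k.1, hk⟩ / (1 + 0 ^ 2 * ∑ i, gv x a b 0 i ^ 2) := by
        simp only [Sum.elim_inr, dif_pos hk]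
        simp [gv]
      rw [e2]
      exact h
    · have h := hasDerivAt_id_mul
        (fun t => -(2 * t * (∑ i, gv x a b t i ^ 2)) / (1 + t ^ 2 * ∑ i, gv x a b t i ^ 2)) (by
          refine Continuous.continuousAt ?_
          exact (((continuous_const.mul continuous_id).mul hG).neg).div
            (continuous_const.add ((continuous_id.pow 2).mul hG)) (den_pos x a b))
      have e1 : (fun t : ℝ => muF (x + t • a) (t • b) (Sum.inr (Sum.inr k))) =
          fun t => 1 + t * (-(2 * t * (∑ i, gv x a b t i ^ 2)) /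
            (1 + t ^ 2 * ∑ i, gv x a b t i ^ 2)) := by
        funext t
        simp only [muF, Sum.elim_inr, dif_neg hk, sone_line]
        have := den_pos x a b t
        field_simp
        ring
      rw [e1]
      have e2 : (Sum.elim (fun j => -Real.sin (x j) * a j) (Sum.elim (fun j => Real.cos (x j) * a j)
          (fun k : Fin 5 => if h : k.1 < 4 then 2 * ((1 - pL x) *ᵥ b) ⟨k.1, h⟩ else 0)) :
            Idx → ℝ) (Sum.inr (Sum.inr k)) =
          -(2 * 0 * (∑ i, gv x a b 0 i ^ 2)) / (1 + 0 ^ 2 * ∑ i, gv x a b 0 i ^ 2) := by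
        simp only [Sum.elim_inr, dif_neg hk]
        simp
      rw [e2]
      exact h.const_add 1

theorem muF_fderiv (h3 : S_PLSM) (x : Ang) (u : Fin 8 → ℝ) :
    fderiv ℝ (fun u : Fin 8 → ℝ => muF (x + uL u) (uR u)) 0 u =
      Sum.elim (fun j => -Real.sin (x j) * uL u j) (Sum.elim (fun j => Real.cos (x j) * uL u j)
        (fun k => if h : k.1 < 4 then 2 * ((1 - pL x) *ᵥ uR u) ⟨k.1, h⟩ else 0)) := by
  have hsm : ContDiff ℝ ∞ (fun u : Fin 8 → ℝ => muF (x + uL u) (uR u)) :=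
    (muF_smooth h3).comp ((contDiff_const.add uL_contDiff).prodMk uR_contDiff)
  have hd : HasFDerivAt (fun u : Fin 8 → ℝ => muF (x + uL u) (uR u))
      (fderiv ℝ (fun u : Fin 8 → ℝ => muF (x + uL u) (uR u)) 0) ((0 : ℝ) • u) := by
    rw [zero_smul]
    exact (hsm.differentiable (by simp) 0).hasFDerivAt
  have hl : HasDerivAt (fun t : ℝ => t • u) u 0 := by
    simpa using (hasDerivAt_id (0 : ℝ)).smul_const u
  have h1 := hd.comp_hasDerivAt (0 : ℝ) hl
  have h2 := deriv_line h3 x (uL u) (uR u)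
  exact h1.unique h2

/-- The parametrisation of `M` near the torus `kk`. -/
theorem mu_ok (h1 : S_ROOT) (h2 : S_QUAT) (h3 : S_PLSM) : S_MU :=
  ⟨muF, muF_smooth h3, muF_MM h1 h2, muF_zero, muF_per h3, muF_proj h1 h2, muF_fderiv h3⟩

end

end Pool.Agent.Helper27.AC
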